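import Mathlib

/-!
# A vertex-transitive graph without injective harmonic functions

The vertices are the pairs of letters `x y` (in `ℤ/2`) written at the positions `n, n + 1` of `ℤ`;
`(n; x, y)` is adjacent to `(n + 1; y, z)`. Harmonicity gives
`4 f (n; x, y) = (f (n+1; y, 0) + f (n+1; y, 1)) + (f (n-1; 0, x) + f (n-1; 1, x))`, which forces
every harmonic function to be constant on each level `n`.
-/

set_option autoImplicit false

namespace Pool.Agent.Results.MP_798444_co.TwoLetterStrings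

/-- `f` is harmonic: at every vertex `v` the degree of `v` times `f v` is the sum of the values of
`f` at the neighbours of `v` (that is, `f v` is the mean of the values at the neighbours). -/
def IsHarmonic {V R : Type} [Ring R] (G : SimpleGraph V) (f : V → R) : Prop :=
  ∀ v, ((G.neighborSet v).ncard : R) * f v = ∑ᶠ u ∈ G.neighborSet v, f u

/-- the automorphism group acts transitively on the vertices -/
def VertexTransitive {V : Type} (G : SimpleGraph V) : Prop :=
  ∀ u v : V, ∃ φ : G ≃g G, φ u = v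

/-- `(n; x, y)` and `(n + 1; y, z)` are adjacent -/
def G : SimpleGraph (ℤ × ZMod 2 × ZMod 2) where
  Adj u v := (v.1 = u.1 + 1 ∧ v.2.1 = u.2.2) ∨ (u.1 = v.1 + 1 ∧ u.2.1 = v.2.2)
  symm := ⟨fun _ _ h => h.symm⟩
  loopless := ⟨fun u h => by rcases h with ⟨h, _⟩ | ⟨h, _⟩ <;> omega⟩

lemma adj_iff (u v : ℤ × ZMod 2 × ZMod 2) : G.Adj u v ↔
    (v.1 = u.1 + 1 ∧ v.2.1 = u.2.2) ∨ (u.1 = v.1 + 1 ∧ u.2.1 = v.2.2) := Iff.rfl

lemma zmod_two (a : ZMod 2) : a = 0 ∨ a = 1 := by
  revert a; decide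

/-- the neighbours of `(n; x, y)` -/
def nb (n : ℤ) (x y : ZMod 2) : Finset (ℤ × ZMod 2 × ZMod 2) :=
  {(n + 1, y, 0), (n + 1, y, 1), (n - 1, 0, x), (n - 1, 1, x)}

lemma neighborSet_eq (n : ℤ) (x y : ZMod 2) : G.neighborSet (n, x, y) = (nb n x y : Set _) := by
  ext ⟨m, p, q⟩
  simp only [SimpleGraph.mem_neighborSet, adj_iff, nb, Finset.coe_insert, Finset.coe_singleton,
    Set.mem_insert_iff, Set.mem_singleton_iff, Prod.mk.injEq]
  constructor
  · rintro (⟨h1, h2⟩ | ⟨h1, h2⟩)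
    · rcases zmod_two q with h | h
      · exact Or.inl ⟨h1, h2, h⟩
      · exact Or.inr (Or.inl ⟨h1, h2, h⟩)
    · have h3 : m = n - 1 := by omega
      rcases zmod_two p with h | h
      · exact Or.inr (Or.inr (Or.inl ⟨h3, h, h2.symm⟩))
      · exact Or.inr (Or.inr (Or.inr ⟨h3, h, h2.symm⟩))
  · rintro (⟨h1, h2, _⟩ | ⟨h1, h2, _⟩ | ⟨h1, _, h3⟩ | ⟨h1, _, h3⟩)
    · exact Or.inl ⟨h1, h2⟩
    · exact Or.inl ⟨h1, h2⟩
    · exact Or.inr ⟨by omega, h3.symm⟩
    · exact Or.inr ⟨by omega, h3.symm⟩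

lemma ne_levels (n : ℤ) (a b c d : ZMod 2) : ((n + 1, a, b) : ℤ × ZMod 2 × ZMod 2) ≠ (n - 1, c, d) := by
  intro h
  have := congrArg Prod.fst h
  simp only at this
  omega

lemma ne_up (n : ℤ) (a : ZMod 2) : ((n + 1, a, 0) : ℤ × ZMod 2 × ZMod 2) ≠ (n + 1, a, 1) := by
  intro h
  have := congrArg (fun t => t.2.2) h
  revert this; simp

lemma ne_down (n : ℤ) (a : ZMod 2) : ((n - 1, 0, a) : ℤ × ZMod 2 × ZMod 2) ≠ (n - 1, 1, a) := by
  intro h
  have := congrArg (fun t => t.2.1) h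
  revert this; simp

lemma card_nb (n : ℤ) (x y : ZMod 2) : (nb n x y).card = 4 := by
  unfold nb
  rw [Finset.card_insert_of_notMem, Finset.card_insert_of_notMem, Finset.card_insert_of_notMem,
    Finset.card_singleton]
  · simp only [Finset.mem_singleton]; exact ne_down n x
  · simp only [Finset.mem_insert, Finset.mem_singleton, not_or]
    exact ⟨ne_levels _ _ _ _ _, ne_levels _ _ _ _ _⟩
  · simp only [Finset.mem_insert, Finset.mem_singleton, not_or]
    exact ⟨ne_up _ _, ne_levels _ _ _ _ _, ne_levels _ _ _ _ _⟩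

lemma sum_nb {R : Type} [Ring R] (f : ℤ × ZMod 2 × ZMod 2 → R) (n : ℤ) (x y : ZMod 2) :
    ∑ u ∈ nb n x y, f u =
      f (n + 1, y, 0) + (f (n + 1, y, 1) + (f (n - 1, 0, x) + f (n - 1, 1, x))) := by
  unfold nb
  rw [Finset.sum_insert, Finset.sum_insert, Finset.sum_insert, Finset.sum_singleton]
  · simp only [Finset.mem_singleton]; exact ne_down n x
  · simp only [Finset.mem_insert, Finset.mem_singleton, not_or]
    exact ⟨ne_levels _ _ _ _ _, ne_levels _ _ _ _ _⟩
  · simp only [Finset.mem_insert, Finset.mem_singleton, not_or]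
    exact ⟨ne_up _ _, ne_levels _ _ _ _ _, ne_levels _ _ _ _ _⟩

lemma harmonic_eq {R : Type} [Ring R] {f : ℤ × ZMod 2 × ZMod 2 → R} (hf : IsHarmonic G f)
    (n : ℤ) (x y : ZMod 2) : 4 * f (n, x, y) =
      f (n + 1, y, 0) + (f (n + 1, y, 1) + (f (n - 1, 0, x) + f (n - 1, 1, x))) := by
  have h := hf (n, x, y)
  rw [neighborSet_eq, Set.ncard_coe_finset, card_nb, finsum_mem_coe_finset, sum_nb] at h
  exact_mod_cast h

/-- two distinct vertices at which all harmonic functions agree -/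
lemma agree_real {f : ℤ × ZMod 2 × ZMod 2 → ℝ} (hf : IsHarmonic G f) :
    f (1, 0, 0) = f (1, 1, 0) := by
  have a1 := harmonic_eq hf 0 0 0
  have a2 := harmonic_eq hf 0 0 1
  have a3 := harmonic_eq hf 0 1 0
  have a4 := harmonic_eq hf 0 1 1
  have b1 := harmonic_eq hf 1 0 0
  have b2 := harmonic_eq hf 1 0 1
  have b3 := harmonic_eq hf 1 1 0
  have b4 := harmonic_eq hf 1 1 1
  norm_num at a1 a2 a3 a4 b1 b2 b3 b4
  linarith

lemma agree_int {f : ℤ × ZMod 2 × ZMod 2 → ℤ} (hf : IsHarmonic G f) :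
    f (1, 0, 0) = f (1, 1, 0) := by
  have a1 := harmonic_eq hf 0 0 0
  have a2 := harmonic_eq hf 0 0 1
  have a3 := harmonic_eq hf 0 1 0
  have a4 := harmonic_eq hf 0 1 1
  have b1 := harmonic_eq hf 1 0 0
  have b2 := harmonic_eq hf 1 0 1
  have b3 := harmonic_eq hf 1 1 0
  have b4 := harmonic_eq hf 1 1 1
  norm_num at a1 a2 a3 a4 b1 b2 b3 b4
  linarith

lemma level_reachable (n : ℤ) : G.Reachable (0, 0, 0) (n, 0, 0) := by
  induction n using Int.induction_on with
  | zero => exact SimpleGraph.Reachable.refl _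
  | succ i ih =>
    refine ih.trans (SimpleGraph.Adj.reachable ?_)
    rw [adj_iff]; exact Or.inl ⟨rfl, rfl⟩
  | pred i ih =>
    refine ih.trans (SimpleGraph.Adj.reachable ?_)
    rw [adj_iff]; exact Or.inr ⟨by show -(i : ℤ) = -(i : ℤ) - 1 + 1; ring, rfl⟩

lemma connected : G.Connected := by
  have h : ∀ v, G.Reachable (0, 0, 0) v := by
    rintro ⟨n, x, y⟩
    have h1 : G.Adj (n, x, y) (n + 1, y, 0) := Or.inl ⟨rfl, rfl⟩
    have h2 : G.Adj (n + 1, y, 0) (n + 1 + 1, 0, 0) := Or.inl ⟨rfl, rfl⟩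
    exact (level_reachable (n + 1 + 1)).trans (h1.reachable.trans h2.reachable).symm
  have : Nonempty (ℤ × ZMod 2 × ZMod 2) := ⟨(0, 0, 0)⟩
  exact ⟨fun u v => (h u).symm.trans (h v)⟩

/-- translate by `k` and add `φ i` to the letter at position `i` -/
def aut (k : ℤ) (φ : ℤ → ZMod 2) : G ≃g G where
  toFun u := (u.1 + k, u.2.1 + φ u.1, u.2.2 + φ (u.1 + 1))
  invFun u := (u.1 - k, u.2.1 - φ (u.1 - k), u.2.2 - φ (u.1 - k + 1))
  left_inv u := by simp
  right_inv u := by simp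
  map_rel_iff' := by
    intro u v
    show (v.1 + k = u.1 + k + 1 ∧ v.2.1 + φ v.1 = u.2.2 + φ (u.1 + 1)) ∨
      (u.1 + k = v.1 + k + 1 ∧ u.2.1 + φ u.1 = v.2.2 + φ (v.1 + 1)) ↔
      (v.1 = u.1 + 1 ∧ v.2.1 = u.2.2) ∨ (u.1 = v.1 + 1 ∧ u.2.1 = v.2.2)
    apply or_congr
    · constructor
      · rintro ⟨h1, h2⟩
        have h3 : v.1 = u.1 + 1 := by omega
        rw [h3] at h2
        exact ⟨h3, add_right_cancel h2⟩
      · rintro ⟨h1, h2⟩
        exact ⟨by omega, by rw [h1, h2]⟩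
    · constructor
      · rintro ⟨h1, h2⟩
        have h3 : u.1 = v.1 + 1 := by omega
        rw [h3] at h2
        exact ⟨h3, add_right_cancel h2⟩
      · rintro ⟨h1, h2⟩
        exact ⟨by omega, by rw [h1, h2]⟩

lemma transitive : VertexTransitive G := by
  intro u v
  refine ⟨aut (v.1 - u.1) (fun i => if i = u.1 then v.2.1 - u.2.1 else v.2.2 - u.2.2), ?_⟩
  show (u.1 + (v.1 - u.1), u.2.1 + (if u.1 = u.1 then _ else _),
    u.2.2 + (if u.1 + 1 = u.1 then _ else _)) = v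
  rw [if_pos rfl, if_neg (by omega)]
  simp

lemma twinfree (u v : ℤ × ZMod 2 × ZMod 2) (h : G.neighborSet u = G.neighborSet v) : u = v := by
  obtain ⟨n, x, y⟩ := u
  obtain ⟨m, p, q⟩ := v
  have h1 : ((n + 1, y, 0) : ℤ × ZMod 2 × ZMod 2) ∈ G.neighborSet (m, p, q) := by
    rw [← h]; exact Or.inl ⟨rfl, rfl⟩
  have h2 : ((n - 1, 0, x) : ℤ × ZMod 2 × ZMod 2) ∈ G.neighborSet (m, p, q) := by
    rw [← h]; exact Or.inr ⟨by show n = n - 1 + 1; ring, rfl⟩
  rw [SimpleGraph.mem_neighborSet, adj_iff] at h1 h2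
  simp only at h1 h2
  rcases h1 with ⟨h1, h1'⟩ | ⟨h1, h1'⟩
  · rcases h2 with ⟨h2, h2'⟩ | ⟨h2, h2'⟩
    · omega
    · have : n = m := by omega
      rw [this, h1', h2']
  · rcases h2 with ⟨h2, h2'⟩ | ⟨h2, h2'⟩
    · omega
    · omega

lemma closed_twinfree (u v : ℤ × ZMod 2 × ZMod 2)
    (h : insert u (G.neighborSet u) = insert v (G.neighborSet v)) : u = v := by
  by_contra hne
  have hv : v ∈ insert u (G.neighborSet u) := by rw [h]; exact Set.mem_insert _ _
  have hadj : G.Adj u v := (Set.mem_insert_iff.1 hv).resolve_left (fun h => hne h.symm)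
  obtain ⟨n, x, y⟩ := u
  obtain ⟨m, p, q⟩ := v
  have hlev : ∀ w ∈ insert ((m, p, q) : ℤ × ZMod 2 × ZMod 2) (G.neighborSet (m, p, q)),
      m - 1 ≤ w.1 ∧ w.1 ≤ m + 1 := by
    rintro w (rfl | hw)
    · exact ⟨by simp, by simp⟩
    · rw [SimpleGraph.mem_neighborSet, adj_iff] at hw
      simp only at hw
      rcases hw with ⟨h1, _⟩ | ⟨h1, _⟩ <;> constructor <;> omega
  rw [← h] at hlev
  have a := hlev (n - 1, 0, x) (Or.inr (Or.inr ⟨by show n = n - 1 + 1; ring, rfl⟩))
  have b := hlev (n + 1, y, 0) (Or.inr (Or.inl ⟨rfl, rfl⟩))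
  simp only at a b
  rw [adj_iff] at hadj
  simp only at hadj
  rcases hadj with ⟨h1, _⟩ | ⟨h1, _⟩ <;> omega

/-- There is an infinite connected locally finite vertex-transitive graph (4-regular, and no two
vertices have the same open or the same closed neighbourhood) with two distinct vertices at which
all real-valued harmonic functions agree; no harmonic function to `ℤ` is injective. -/
theorem result : ∃ (V : Type) (G : SimpleGraph V), Infinite V ∧ G.Connected ∧
    (∀ v, (G.neighborSet v).Finite ∧ (G.neighborSet v).ncard = 4) ∧ VertexTransitive G ∧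
    (∀ u v, u ≠ v → G.neighborSet u ≠ G.neighborSet v ∧
      insert u (G.neighborSet u) ≠ insert v (G.neighborSet v)) ∧
    (∃ u v : V, u ≠ v ∧ ∀ f : V → ℝ, IsHarmonic G f → f u = f v) ∧
    ∀ f : V → ℤ, IsHarmonic G f → ¬ Function.Injective f := by
  have hne : ((1, 0, 0) : ℤ × ZMod 2 × ZMod 2) ≠ (1, 1, 0) := by
    intro h
    have := congrArg (fun t => t.2.1) h
    revert this; simp
  refine ⟨ℤ × ZMod 2 × ZMod 2, G, ?_, connected, ?_, transitive, ?_,
    ⟨(1, 0, 0), (1, 1, 0), hne, fun f hf => agree_real hf⟩, ?_⟩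
  · exact Infinite.of_injective (fun n : ℤ => ((n, 0, 0) : ℤ × ZMod 2 × ZMod 2))
      (fun a b h => congrArg Prod.fst h)
  · rintro ⟨n, x, y⟩
    rw [neighborSet_eq]
    exact ⟨Finset.finite_toSet _, by rw [Set.ncard_coe_finset, card_nb]⟩
  · intro u v huv
    exact ⟨fun h => huv (twinfree u v h), fun h => huv (closed_twinfree u v h)⟩
  · intro f hf hinj
    exact hne (hinj (agree_int hf))

end Pool.Agent.Results.MP_798444_co.TwoLetterStrings
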